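import Mathlib
import Pool.Agent.MP_fed7c7_lc.S5.All

set_option autoImplicit false

/-!
Solvability of polynomial equations in four integer unknowns and one nonnegative integer unknown is
undecidable.
-/

namespace Pool.Agent.Results.MP_fed7c7_lc.FiveUnknownsOneNonneg

open Pool.Agent.MP_fed7c7_lc.H56 Pool.Agent.MP_fed7c7_lc.S5

/-- A polynomial in five unknowns is given as a list of monomials (coefficient, exponent vector).
No algorithm decides whether it has a zero in `ℤ ^ 5` whose last coordinate is nonnegative. -/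
theorem result : ¬ComputablePred fun l : List (ℤ × (Fin 5 → ℕ)) =>
    ∃ x : Fin 5 → ℤ, 0 ≤ x 4 ∧ (l.map fun t => t.1 * ∏ i, x i ^ t.2 i).sum = 0 := by
  intro h
  obtain ⟨U, c, hU, h1, h2⟩ := fiveNonneg
  obtain ⟨f, hf, e⟩ := ComputablePred.computable_iff.1 h
  refine hU (ComputablePred.computable_iff.2 ⟨fun k => f (c k), hf.comp h1.to_comp, ?_⟩)
  funext k
  exact propext ((h2 k).trans (iff_of_eq (congrFun e _)))

end Pool.Agent.Results.MP_fed7c7_lc.FiveUnknownsOneNonneg
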