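import Mathlib
import Pool.Agent.MP_fed7c7_lc.S6.All

set_option autoImplicit false

/-!
Hilbert's tenth problem over the integers is undecidable for polynomials in six unknowns.
-/

namespace Pool.Agent.Results.MP_fed7c7_lc.SixUnknowns

open Pool.Agent.MP_fed7c7_lc.H56 Pool.Agent.MP_fed7c7_lc.S6

/-- A polynomial in six unknowns is given as a list of monomials (coefficient, exponent vector).
No algorithm decides whether it has a zero in `ℤ ^ 6`. -/
theorem result : ¬ComputablePred fun l : List (ℤ × (Fin 6 → ℕ)) =>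
    ∃ x : Fin 6 → ℤ, (l.map fun t => t.1 * ∏ i, x i ^ t.2 i).sum = 0 := by
  intro h
  obtain ⟨U, c, hU, h1, h2⟩ := sixInt
  obtain ⟨f, hf, e⟩ := ComputablePred.computable_iff.1 h
  refine hU (ComputablePred.computable_iff.2 ⟨fun k => f (c k), hf.comp h1.to_comp, ?_⟩)
  funext k
  exact propext ((h2 k).trans (iff_of_eq (congrFun e _)))

end Pool.Agent.Results.MP_fed7c7_lc.SixUnknowns
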